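import Mathlib

set_option autoImplicit false

namespace Pool.Agent.Results.MP_dca5dd_al.Length

open Finset

variable {n : ℕ} {N : Type} [AddCommGroup N] [Module ℂ N]

/-- `Word f S l w`: `w` is a word of length `l` in `S` for the `n`-ary product `f` -/
inductive Word (f : MultilinearMap ℂ (fun _ : Fin n => N) N) (S : Set N) : ℕ → N → Prop
  | gen (s : N) : s ∈ S → Word f S 1 s
  | app (l : Fin n → ℕ) (w : Fin n → N) : (∀ i, Word f S (l i) (w i)) → Word f S (∑ i, l i) (f w)

/-- the span of the words of length at most `i` -/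
def L (f : MultilinearMap ℂ (fun _ : Fin n => N) N) (S : Set N) (i : ℕ) : Submodule ℂ N :=
  Submodule.span ℂ {w | ∃ l ≤ i, Word f S l w}

lemma span_app (f : MultilinearMap ℂ (fun _ : Fin n => N) N) (T : Fin n → Set N)
    (W : Submodule ℂ N) (h : ∀ x, (∀ i, x i ∈ T i) → f x ∈ W) (x : Fin n → N)
    (hx : ∀ i, x i ∈ Submodule.span ℂ (T i)) : f x ∈ W := by
  choose m c g hg using fun i => Submodule.mem_span_set'.mp (hx i)
  rw [← funext hg, f.map_sum]
  refine W.sum_mem fun r _ => ?_
  rw [f.map_smul_univ]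
  exact W.smul_mem _ (h _ fun i => (g i (r i)).2)

lemma L_mono (f : MultilinearMap ℂ (fun _ : Fin n => N) N) (S : Set N) : Monotone (L f S) :=
  fun _ _ h => Submodule.span_mono fun _ ⟨l, h1, h2⟩ => ⟨l, h1.trans h, h2⟩

lemma L_app (f : MultilinearMap ℂ (fun _ : Fin n => N) N) (S : Set N) (t : Fin n → ℕ)
    (x : Fin n → N) (hx : ∀ i, x i ∈ L f S (t i)) : f x ∈ L f S (∑ i, t i) :=
  span_app f _ _ (fun y hy => by
    choose l h1 h2 using hy
    exact Submodule.subset_span ⟨_, sum_le_sum fun i _ => h1 i, Word.app l y h2⟩) x hx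

lemma top_sum (G : ℕ → ℕ) (hG : Monotone G) (a j : ℕ) (T : Finset ℕ) (hT : T ⊆ range j)
    (ha : T.card = a) : ∑ x ∈ T, G (x + 1) ≤ ∑ t ∈ range a, G (j - t) := by
  induction a generalizing j T with
  | zero => simp [card_eq_zero.mp ha]
  | succ a ih =>
    have hne : T.Nonempty := card_pos.mp (by omega)
    have hM := T.max'_mem hne
    have h1 := mem_range.mp (hT hM)
    rw [← add_sum_erase _ _ hM, sum_range_succ', add_comm]
    refine add_le_add ((ih (j - 1) _ (fun x hx => ?_) (by rw [card_erase_of_mem hM]; omega)).trans_eq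
      (sum_congr rfl fun t _ => by congr 1; omega)) (hG (by omega))
    have := T.le_max' x (mem_of_mem_erase hx)
    have := ne_of_mem_erase hx
    rw [mem_range]; omega

lemma main [FiniteDimensional ℂ N] (f : MultilinearMap ℂ (fun _ : Fin n => N) N) (S : Set N)
    (A : Finset (Fin n)) (hA : 1 ≤ A.card)
    (hz : ∀ x : Fin n → N, ∀ i ∈ A, ∀ j ∈ A, i ≠ j → x i = x j → f x = 0) (F : ℕ → ℕ)
    (h1 : ∀ m ≤ A.card, F m = 1)
    (h2 : ∀ m > A.card, F m = (n - A.card + 1) * F (m - 1) + ∑ i ∈ Icc 2 A.card, F (m - i))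
    (hS : ∀ x, ∃ i, x ∈ L f S i) :
    1 ≤ F (Module.finrank ℂ N) ∧ L f S (F (Module.finrank ℂ N)) = ⊤ := by
  have hF : Monotone F := monotone_nat_of_le_succ fun m => by
    by_cases h : m + 1 ≤ A.card
    · rw [h1 _ h, h1 m (by omega)]
    · rw [h2 (m + 1) (by omega), Nat.add_sub_cancel, add_mul]; omega
  have hp : ∀ m, 1 ≤ F m := fun m => (h1 0 (by omega)).ge.trans (hF m.zero_le)
  have key : ∀ j ≤ Module.finrank ℂ N, ∃ e : Fin j → N, LinearIndependent ℂ e ∧
      ∀ i : Fin j, e i ∈ L f S (F (i + 1)) := by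
    intro j hj
    induction j with
    | zero => exact ⟨Fin.elim0, linearIndependent_empty_type, fun i => i.elim0⟩
    | succ j ih =>
      obtain ⟨e, he, hL⟩ := ih (by omega)
      by_cases h : L f S (F (j + 1)) ≤ Submodule.span ℂ (Set.range e)
      · exfalso
        have hc : ∀ x, (∀ i, x i ∈ Set.range e) → f x ∈ Submodule.span ℂ (Set.range e) := by
          intro x hx
          choose s hs using hx
          by_cases hi : Set.InjOn s A
          · refine h (L_mono f S ?_ (L_app f S (fun i => F (s i + 1)) x fun i => hs i ▸ hL (s i)))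
            have hi' : Set.InjOn (fun i => (s i : ℕ)) A := fun _ ha _ hb h => hi ha hb (Fin.ext h)
            have hsub : A.image (fun i => (s i : ℕ)) ⊆ range j := by
              intro y hy; obtain ⟨i, -, rfl⟩ := mem_image.mp hy; simp
            have hc := card_image_of_injOn hi'
            have hle := card_le_card hsub
            have h3 := top_sum F hF _ j _ hsub hc
            rw [sum_image hi'] at h3
            have h4 : ∑ i ∈ Aᶜ, F (s i + 1) ≤ (n - A.card) * F j := by
              simpa [card_compl] using sum_le_card_nsmul Aᶜ (fun i => F (s i + 1)) (F j)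
                fun i _ => hF (s i).2
            rw [card_range] at hle
            rw [← sum_add_sum_compl A, h2 (j + 1) (by omega), Nat.add_sub_cancel]
            obtain ⟨a, ha⟩ : ∃ a, A.card = a + 1 := ⟨A.card - 1, by omega⟩
            rw [ha] at h3 h4 ⊢
            rw [sum_range_succ'] at h3
            have : ∑ i ∈ Icc 2 (a + 1), F (j + 1 - i) = ∑ t ∈ range a, F (j - (t + 1)) := by
              rw [← Finset.Ico_add_one_right_eq_Icc, sum_Ico_eq_sum_range]
              exact sum_congr (by congr 1) fun t _ => by congr 1; omega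
            rw [this, add_mul]
            simp only [Nat.sub_zero] at h3
            omega
          · simp only [Set.InjOn, not_forall] at hi
            obtain ⟨a, ha, b, hb, h5, h6⟩ := hi
            rw [hz x a ha b hb h6 (by rw [← hs, ← hs, h5])]
            exact zero_mem _
        have hw : ∀ l w, Word f S l w → w ∈ Submodule.span ℂ (Set.range e) := by
          intro l w hw
          induction hw with
          | gen s hs => exact h (Submodule.subset_span ⟨1, hp _, Word.gen s hs⟩)
          | app l w _ ih => exact span_app f _ _ hc w ih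
        have ht : Submodule.span ℂ (Set.range e) = ⊤ := eq_top_iff.mpr fun x _ => by
          obtain ⟨i, hi⟩ := hS x
          have : L f S i ≤ Submodule.span ℂ (Set.range e) :=
            Submodule.span_le.mpr fun w ⟨l, _, h⟩ => hw l w h
          exact this hi
        have := finrank_span_eq_card he
        rw [ht, finrank_top, Fintype.card_fin] at this
        omega
      · obtain ⟨y, hy, hy'⟩ := SetLike.not_le_iff_exists.mp h
        refine ⟨Fin.snoc e y, linearIndependent_fin_snoc.mpr ⟨he, hy'⟩, fun i => ?_⟩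
        refine Fin.lastCases ?_ (fun i => ?_) i
        · simpa using hy
        · simpa using hL i
  obtain ⟨e, he, hL⟩ := key _ le_rfl
  refine ⟨hp _, eq_top_iff.mpr ?_⟩
  rw [← he.span_eq_top_of_card_eq_finrank' (by simp), Submodule.span_le]
  rintro _ ⟨i, rfl⟩
  exact L_mono f S (hF i.2) (hL i)

theorem result (n : ℕ) (hn : 2 ≤ n) (A C : Finset (Fin n)) (_hAC : Disjoint A C)
    (_hA : A.card ≠ 1) (a : ℕ) (ha : a = if A.card = 0 then 1 else A.card) (F : ℕ → ℕ)
    (h1 : ∀ m ≤ a, F m = 1)
    (h2 : ∀ m > a, F m = (n - a + 1) * F (m - 1) + ∑ i ∈ Icc 2 a, F (m - i))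
    (k : ℕ) (N : Type) [AddCommGroup N] [Module ℂ N] [FiniteDimensional ℂ N]
    (hk : Module.finrank ℂ N = k) (f : MultilinearMap ℂ (fun _ : Fin n => N) N)
    (hfA : ∀ x : Fin n → N, ∀ i ∈ A, ∀ j ∈ A, i ≠ j → f (x ∘ Equiv.swap i j) = -f x)
    (_hfC : ∀ x : Fin n → N, ∀ i ∈ C, ∀ j ∈ C, i ≠ j → f (x ∘ Equiv.swap i j) = f x)
    (S : Set N) (_hS : S.Finite) (hgen : ⋃ i, (L f S i : Set N) = Set.univ) :
    ∃ i, 1 ≤ i ∧ i ≤ F k ∧ L f S i = ⊤ := by
  have hS : ∀ x, ∃ i, x ∈ L f S i := fun x => Set.mem_iUnion.mp (hgen ▸ Set.mem_univ x)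
  subst hk
  split_ifs at ha with h0
  · subst ha
    have := main f S {⟨0, by omega⟩} (by simp) (by simp) F h1 h2 hS
    exact ⟨_, this.1, le_rfl, this.2⟩
  · subst ha
    have := main f S A (by omega) (fun x i hi j hj hij hx => ?_) F h1 h2 hS
    · exact ⟨_, this.1, le_rfl, this.2⟩
    · have h := hfA x i hi j hj hij
      rw [Equiv.comp_swap_eq_update, hx, Function.update_eq_self, ← hx, Function.update_eq_self] at h
      have h2 : (2 : ℂ) • f x = 0 := by rw [two_smul]; exact eq_neg_iff_add_eq_zero.mp h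
      simpa using h2

end Pool.Agent.Results.MP_dca5dd_al.Length
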